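import Pool.Agent.H91.BE.Ext
import Pool.Agent.H91.BE.Line
import Pool.Agent.H91.BE.Res

/-!
# MP_13cea9_gt, Q1 and Q2: what stability gives for the barcode entropy, and what it does not

Everything is stated for bar systems: a group with a bi-invariant pseudo-distance and bar counts
which satisfy the stability inequality. By published theorems (not in this file) the group of
Hamiltonian diffeomorphisms of a closed weakly monotone symplectic manifold, with the Hofer or the
spectral distance and the numbers of bars of filtered Floer homology, is a bar system.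
-/

set_option autoImplicit false

open Filter Topology Pool.Agent.H91.BE

namespace Pool.Agent.Results.MP_13cea9_gt.LinearBars

/-- Let `B` be a bar system on a group `G`, `ħ = barEntropy`, `ħ_ε = entropyAt`, and let
`linearEntropy` be the growth of the number of bars of linear length.

0. `ħ` and `linearEntropy` are the limits of `ħ_ε` for `ε → 0+` and of the growth of the number of
   bars of `φ ^ k` longer than `c k` for `c → 0+`.
1. `linearEntropy ≤ ħ`; `linearEntropy` is lower semicontinuous for the distance, even for
   sequences for which only the linear growth of the distances of the iterates tends to `0`; hence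
   `ħ` is lower semicontinuous at every `φ` with `ħ(φ) = linearEntropy(φ)`. Longer bars do not
   contribute: for `c > 2 d(φ, 1)` the growth of the number of bars longer than `c k` is `0`.
2. If the iterates are uniformly close, `ħ(φ) ≤ lim inf ħ(u_i)`.
3. If the bar counts are supermultiplicative near `φ`, then `ħ` is lower semicontinuous at `φ`.
4. For every family `F : T → G` over a topological space which is continuous for the distance there
   is a residual set of parameters on which `ħ ∘ F` is continuous, and at these parameters the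
   upper limit of `ħ_ε(F s)` for `s → t` is at most `ħ_ε'(F t)` for all `0 < ε' < ε`.
5. Barrier: there is a bar system on the real line with the usual distance, at least one bar for
   every element, invariant under inversion, with finite `ħ`, such that `ħ = 0` at all rational
   numbers `≥ 1`, while `ħ ≥ log 2` and lower semicontinuity fails at all numbers `≥ 1` of a residual
   set; so the axioms do not imply lower semicontinuity, not even at generic elements.
6. Optimality: every bar system on a group `G` extends to a bar system on `G × ℝ`, with distance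
   `dist φ ψ + |x - y|` and bars shortened by `2 |x|` at `(φ, x)`, in which `ħ (φ, x)` tends to
   `linearEntropy φ` for `x → 0`, `x ≠ 0`, for every `φ`; so the lower bound `linearEntropy φ` for
   the lower limits of `ħ` which follows from 1 is the best consequence of the axioms. -/
theorem result :
    (∀ (G : Type) [Group G] (B : BarSystem G) (φ : G),
      -- 0. the two entropies are limits
      (Tendsto (fun ε => entropyAt B ε φ) (𝓝[>] 0) (𝓝 (barEntropy B φ)) ∧
        Tendsto (fun c : ℝ => scaleEntropy B (fun k => c * k) φ) (𝓝[>] 0)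
          (𝓝 (linearEntropy B φ))) ∧
      -- 1. bars of linear length
      (linearEntropy B φ ≤ barEntropy B φ ∧ LscAt B (linearEntropy B) φ ∧
        (∀ u : ℕ → G,
          (∀ δ > (0 : ℝ), ∀ᶠ i in atTop, ∀ᶠ k : ℕ in atTop,
            B.dist (φ ^ k) (u i ^ k) < δ * k) →
          linearEntropy B φ ≤ liminf (fun i => linearEntropy B (u i)) atTop) ∧
        (barEntropy B φ = linearEntropy B φ → LscAt B (barEntropy B) φ) ∧
        ∀ c : ℝ, 2 * B.dist φ 1 < c → scaleEntropy B (fun k => c * k) φ = 0) ∧
      -- 2. uniformly close iterates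
      (∀ u : ℕ → G,
        (∀ η > (0 : ℝ), ∀ᶠ i in atTop, ∀ᶠ k : ℕ in atTop, B.dist (φ ^ k) (u i ^ k) < η) →
        barEntropy B φ ≤ liminf (fun i => barEntropy B (u i)) atTop) ∧
      -- 3. supermultiplicativity
      (SupermultiplicativeNear B φ → LscAt B (barEntropy B) φ)) ∧
    -- 4. continuous families
    (∀ (G : Type) [Group G] (B : BarSystem G) (T : Type) [TopologicalSpace T] (F : T → G),
      (∀ t, Tendsto (fun s => B.dist (F s) (F t)) (𝓝 t) (𝓝 0)) →
      ∃ R ∈ residual T, ContinuousOn (fun t => barEntropy B (F t)) R ∧
        ∀ t ∈ R, ∀ ε' ε : ℝ, 0 < ε' → ε' < ε →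
          limsup (fun s => entropyAt B ε (F s)) (𝓝 t) ≤ entropyAt B ε' (F t)) ∧
    -- 5. the barrier
    (∃ B : BarSystem (Multiplicative ℝ),
      (∀ x y : ℝ, B.dist (Multiplicative.ofAdd x) (Multiplicative.ofAdd y) = |x - y|) ∧
      (∀ ε g, 1 ≤ B.bars ε g) ∧ (∀ ε g, B.bars ε g⁻¹ = B.bars ε g) ∧
      (∀ g, barEntropy B g < ⊤) ∧
      (∀ r : ℚ, 1 ≤ r → barEntropy B (Multiplicative.ofAdd (r : ℝ)) = 0) ∧
      ∃ R ∈ residual ℝ, ∀ x ∈ R, 1 ≤ x →
        ENNReal.ofReal (Real.log 2) ≤ barEntropy B (Multiplicative.ofAdd x) ∧
        ¬ LscAt B (barEntropy B) (Multiplicative.ofAdd x)) ∧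
    -- 6. optimality of the bound in 1
    ∀ (G : Type) [Group G] (B : BarSystem G), ∃ B' : BarSystem (G × Multiplicative ℝ),
      (∀ (φ ψ : G) (x y : ℝ), B'.dist (φ, Multiplicative.ofAdd x) (ψ, Multiplicative.ofAdd y) =
        B.dist φ ψ + |x - y|) ∧
      (∀ (ε : ℝ) (φ : G) (x : ℝ),
        B'.bars ε (φ, Multiplicative.ofAdd x) = B.bars (ε + 2 * |x|) φ) ∧
      ∀ φ : G, Tendsto (fun x : ℝ => barEntropy B' (φ, Multiplicative.ofAdd x)) (𝓝[≠] 0)
        (𝓝 (linearEntropy B φ)) :=
  ⟨fun _ _ B φ => ⟨⟨tendsto_entropyAt B φ, tendsto_linear B φ⟩,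
    ⟨linear_le B φ, linear_lsc B φ, fun _ h => linear_lsc' B h, bar_lsc_of_linear B φ,
      fun _ hc => large_scale B φ hc⟩, fun _ h => uniform_lsc B h, super_lsc B φ⟩,
    fun _ _ _ _ _ _ hF => residual_family hF, line_model, fun _ _ B => ext_model B⟩

end Pool.Agent.Results.MP_13cea9_gt.LinearBars
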